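import Pool.Agent.V2450.WM.Lev

/-!
# MP_d037d4_ag: the p-adic weight-monodromy conjecture and the Hodge level
-/

set_option autoImplicit false

open Module

universe u v w

namespace Pool.Agent.Results.MP_d037d4_ag.HodgeLevel

open Pool.Agent.H914 Pool.Agent.Y143 Pool.Agent.Y163.MW Pool.Agent.Y163.MX Pool.Agent.V2450.WM

variable {K : Type u} [Field K] {Ω : Type w} [Field Ω] [CharZero Ω]

/-- `H^m(X)` has Hodge level at most `r`: `h^(a,b)(X) = 0` for `a + b = m` unless `b - a ≤ r`. -/
def HodgeLevelLe (T : PTheory.{u, v, w} K Ω) (X : SmVar.{u} K) (m r : ℕ) : Prop :=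
  ∀ a : ℕ, T.hodge X m a ≠ 0 → m ≤ 2 * a + r

/-- All the eigenvalues of the Frobenius on `H^m` have a weight between `m - r` and `m + r`, and
`N ^ (r + 1) = 0` on `H^m`. -/
def Bounded (R : Coh.{v, w} Ω) (q m r : ℕ) : Prop :=
  (∀ α, mult R m α ≠ 0 → ∃ w : ℤ, (m : ℤ) - r ≤ w ∧ w ≤ m + r ∧ IsWeilNumber q w α) ∧
    ∀ x ∈ R.gr m, (R.N ^ (r + 1)) x = 0

/-- **The `p`-adic weight-monodromy conjecture and the Hodge level.** Let `X` be a smooth proper
variety over a finite extension `K` of `ℚ_p`, and `m ≤ 2 dim X`. Suppose that the cohomology groups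
`H^j(X)` with `j ≠ m` are good: the characteristic polynomial of the Frobenius on `H^j(X)` has
rational coefficients, for example because `H^j(X)` is generated by algebraic cycles (as for all
`j ≠ dim X` if `X` is a complete intersection in a projective space, a Grassmannian or another flag
variety). Suppose that `H^m(X)` has Hodge level at most `r`. Then, for the Hyodo-Kato cohomology group
`H^m(X)`,

(1) the weights of the Frobenius are between `m - r` and `m + r`, and `N ^ (r + 1) = 0`;

(2) if `r = 0`, the conjecture holds for `H^m(X)` (and `N = 0` by (1));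

(3) if `r = 1`, the conjecture holds for `H^m(X)` if and only if the rank of `N` is equal to the number
of the eigenvalues of the Frobenius of weight `m + 1`. -/
theorem result [IsAlgClosed Ω] {T : PTheory.{u, v, w} K Ω} {q : ℕ} (hq : 1 < q)
    (hT : T.IsPLocal q) (X : SmVar.{u} K) (m r : ℕ) (hm : m ≤ 2 * X.dim)
    (hX : GoodOutside (T.H X) q (2 * X.dim) m) (hr : HodgeLevelLe T X m r) :
    Bounded (T.H X) q m r ∧ (r = 0 → (T.H X).MWPure q m) ∧
    (r = 1 → ((T.H X).MWPure q m ↔
      finrank Ω (((T.H X).gr m).map (T.H X).N) = finrank Ω ((T.H X).exc q m 1))) := by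
  classical
  have hR := hT.coh X
  have hfin := hR.finite
  have hrat := rational_of_good hR hm (hT.rational X) hX
  have h1 : ∀ α, mult (T.H X) m α ≠ 0 → |Coh.wtf q α - (m : ℤ)| ≤ r := fun α hα =>
    weight_level hq hR hrat hT.val (hT.polygons X m) hr hα
  have h2 : ∀ c : ℤ, (r : ℤ) < |c| → (T.H X).exc q m c = ⊥ := fun c hc => by
    rw [← Submodule.finrank_eq_zero (R := Ω)]
    exact exc_level hq hR h1 hc
  have h6 : ∀ α, mult (T.H X) m α ≠ 0 →
      ∃ w : ℤ, (m : ℤ) - r ≤ w ∧ w ≤ m + r ∧ IsWeilNumber q w α := by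
    intro α hα
    have h7 := abs_le.1 (h1 α hα)
    exact ⟨_, by linarith [h7.1], by linarith [h7.2], mult_wt hq hR hα⟩
  refine ⟨⟨h6, nilp_level hq hR h2⟩, fun h0 => ?_, fun h0 => ?_⟩
  · subst h0
    exact pure_zero hq hR (fun c hc => h2 c (by exact_mod_cast hc))
  · subst h0
    exact pure_one hq hR (fun c hc => h2 c (by exact_mod_cast hc))

end Pool.Agent.Results.MP_d037d4_ag.HodgeLevel
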