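import Pool.Agent.V2450.WM.Pair

/-!
# MP_d037d4_ag: the p-adic weight-monodromy conjecture in several degrees at once, and the Hodge
numbers
-/

set_option autoImplicit false

open Module

universe u v w

namespace Pool.Agent.Results.MP_d037d4_ag.SeveralDegrees

open Pool.Agent.H914 Pool.Agent.Y143 Pool.Agent.Y163.MW Pool.Agent.Y163.MX Pool.Agent.V2450.WM

variable {K : Type u} [Field K] {Ω : Type w} [Field Ω] [CharZero Ω]

/-- The degrees in `S` are of one parity and at most `k`, and the cohomology in the other degrees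
`j ≤ k` is good: the characteristic polynomial of the Frobenius on `H^j` has rational coefficients,
or all its eigenvalues on `H^j` are powers of `q`. -/
structure GoodOutsideSet (R : Coh.{v, w} Ω) (q k : ℕ) (S : Finset ℕ) : Prop where
  le : ∀ m ∈ S, m ≤ k
  parity : ∀ m ∈ S, ∀ m' ∈ S, (Even m ↔ Even m')
  good : ∀ j, j ≤ k → j ∉ S →
    RationalPoly (charP R j) ∨ ∀ α, mult R j α ≠ 0 → ∃ i : ℕ, α = (q : Ω) ^ i

/-- The number `2 ∑ k rank (N ^ k)` on the sum of the groups `H^m(X)`, `m ∈ S`. -/
noncomputable def ranks (T : PTheory.{u, v, w} K Ω) (X : SmVar.{u} K) (S : Finset ℕ) : ℤ :=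
  ∑ m ∈ S, (T.H X).rankMoment m

/-- The number `∑ (w - m)²` on the sum of the groups `H^m(X)`, `m ∈ S`; here `w` runs through the
weights of the eigenvalues of the Frobenius on `H^m(X)`. -/
noncomputable def weights (T : PTheory.{u, v, w} K Ω) (q : ℕ) (X : SmVar.{u} K) (S : Finset ℕ) :
    ℤ := ∑ m ∈ S, (T.H X).weightMoment q m

/-- The number `∑ (2 λ - m)²` on the sum of the groups `H^m(X)`, `m ∈ S`; here `λ` runs through the
slopes of the Frobenius on `H^m(X)`. -/
noncomputable def slopes (T : PTheory.{u, v, w} K Ω) (X : SmVar.{u} K) (S : Finset ℕ) : ℝ :=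
  ∑ m ∈ S, newtonMoment (T.H X) T.val m

/-- The number `∑ (a - b)² h^(a,b)(X)`, over all `a`, `b` with `a + b ∈ S`. -/
noncomputable def hodge (T : PTheory.{u, v, w} K Ω) (X : SmVar.{u} K) (S : Finset ℕ) : ℤ :=
  ∑ m ∈ S, hodgeMoment m (T.hodge X m)

/-- The number of the Frobenius eigenvalues on the graded pieces of the monodromy filtrations `M m` of
the groups `H^m(X)`, `m ∈ S`, whose weight is not the expected one. -/
noncomputable def wrong (T : PTheory.{u, v, w} K Ω) (q : ℕ) (X : SmVar.{u} K) (S : Finset ℕ)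
    (M : ℕ → ℤ → Submodule Ω (T.H X).V) : ℤ :=
  ∑ m ∈ S, ((finrank Ω ((T.H X).gr m) : ℤ) - rightDeg (T.H X) q m (M m))

/-- `M m` is the monodromy filtration of `H^m(X)` for all `m ∈ S`. -/
def IsMonFil (T : PTheory.{u, v, w} K Ω) (X : SmVar.{u} K) (S : Finset ℕ)
    (M : ℕ → ℤ → Submodule Ω (T.H X).V) : Prop :=
  ∀ m ∈ S, IsMonodromyFiltrationOn ((T.H X).gr m) (T.H X).N (M m)

/-- All Frobenius eigenvalues on `H^m(X)` have a weight `2 a` and the slope `a` for some natural number
`a`, and there are `h^(a, m - a)` eigenvalues of weight `2 a`. -/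
def HodgeTateLike (T : PTheory.{u, v, w} K Ω) (q : ℕ) (X : SmVar.{u} K) (m : ℕ) : Prop :=
  (∀ α, mult (T.H X) m α ≠ 0 →
    ∃ a : ℕ, T.hodge X m a ≠ 0 ∧ IsWeilNumber q (2 * (a : ℤ)) α ∧ T.val α = a) ∧
  ∀ a : ℕ, finrank Ω ((T.H X).exc q m (2 * (a : ℤ) - m)) = T.hodge X m a

/-- **The `p`-adic monodromy and the Hodge numbers in several degrees.** Let `X` be a smooth proper
variety over a finite extension `K` of `ℚ_p`, and let `S` be a set of degrees `m ≤ 2 dim X` of one
parity such that the cohomology in the degrees outside `S` is good: the characteristic polynomial of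
the Frobenius has rational coefficients, for example because the cohomology is zero or generated by
algebraic cycles. (So `S` may be the set of all even degrees if `X` has no odd cohomology, and the set
of all odd degrees if the even cohomology is algebraic.) Then, for the Hyodo-Kato cohomology,

(1) `2 ∑ k rank (N ^ k) ≤ ∑ (w - m)² ≤ ∑ (2 λ - m)² ≤ ∑ (a - b)² h^(a,b)`, summed over `m ∈ S`,
`a + b ∈ S`, where `w` and `λ` are the weights and the slopes of the Frobenius eigenvalues;

(2) the number of the eigenvalues of the Frobenius on the graded pieces of the monodromy filtrations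
of the `H^m(X)`, `m ∈ S`, whose weight is not the one predicted by the conjecture, is at most the
difference of the last and the first term in (1);

(3) if these are equal, then the conjecture holds for `H^m(X)` for all `m ∈ S`, and the Frobenius
eigenvalues on `H^m(X)`, `m ∈ S`, have the weights `2 a` and the slopes `a` with multiplicity
`h^(a, m - a)`. -/
theorem result [IsAlgClosed Ω] {T : PTheory.{u, v, w} K Ω} {q : ℕ} (hq : 1 < q)
    (hT : T.IsPLocal q) (X : SmVar.{u} K) (S : Finset ℕ)
    (hS : GoodOutsideSet (T.H X) q (2 * X.dim) S) :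
    (ranks T X S ≤ weights T q X S ∧ (weights T q X S : ℝ) ≤ slopes T X S ∧
      slopes T X S ≤ (hodge T X S : ℝ)) ∧
    (∀ M, IsMonFil T X S M → wrong T q X S M ≤ hodge T X S - ranks T X S) ∧
    (ranks T X S = hodge T X S → ∀ m ∈ S, (T.H X).MWPure q m ∧ HodgeTateLike T q X m) := by
  have hR := hT.coh X
  have hpair : RemainingPair (T.H X) (T.H X) (2 * X.dim) S :=
    { le := hS.le
      parity := hS.parity
      good := fun j hj hjS => by
        have h1 : RationalPoly (charP (T.H X) j) := by
          rcases hS.good j hj hjS with h | h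
          · exact h
          · exact rational_of_tate h
        obtain ⟨G, hG⟩ := h1
        exact ⟨G, hG, hG⟩ }
  have halt : SameAlt (T.H X) (T.H X) (2 * X.dim) := by
    obtain ⟨P, Q, hP, hQ, ⟨P0, rfl⟩, ⟨Q0, rfl⟩, h⟩ := hT.rational X
    refine ⟨P0, Q0, ?_, ?_, h, h⟩
    · rintro rfl
      exact hP (Polynomial.map_zero _)
    · rintro rfl
      exact hQ (Polynomial.map_zero _)
  obtain ⟨P, hP, -⟩ := common hR halt hpair
  have hrat : RationalPoly (charS (T.H X) S) := ⟨P, hP⟩
  have hN : ∀ m ∈ S, NewtonAboveHodge (T.H X) T.val m (T.hodge X m) :=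
    fun m _ => hT.polygons X m
  obtain ⟨h1, h2, h3⟩ := sandwichS hq hR hrat hT.val hN
  have e : ((hodge T X S : ℤ) : ℝ) = ∑ m ∈ S, (hodgeMoment m (T.hodge X m) : ℝ) := by
    unfold hodge
    push_cast
    rfl
  have e' : ((weights T q X S : ℤ) : ℝ) = ∑ m ∈ S, ((T.H X).weightMoment q m : ℝ) := by
    unfold weights
    push_cast
    rfl
  have h4 : (weights T q X S : ℝ) ≤ slopes T X S := by
    rw [e']
    exact h2
  have h5 : slopes T X S ≤ (hodge T X S : ℝ) := by
    rw [e]
    exact h3
  have h6 : weights T q X S ≤ hodge T X S := by exact_mod_cast h4.trans h5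
  have h7 := rankS_le hq hR S
  refine ⟨⟨h7.1, h4, h5⟩, fun M hM => ?_, fun h => ?_⟩
  · have h8 : wrong T q X S M ≤ weights T q X S - ranks T X S := wrongS_le hq hR S hM
    linarith
  · have h8 : ranks T X S ≤ weights T q X S := h7.1
    have h9 : ranks T X S = weights T q X S := by linarith
    have h10 := h7.2.1 h9
    have h11 := extremalS hq hR hrat hT.val hN (by
      have h12 : hodge T X S ≤ weights T q X S := by linarith
      exact h12)
    exact fun m hm => ⟨h10 m hm, h11 m hm⟩

end Pool.Agent.Results.MP_d037d4_ag.SeveralDegrees
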